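import Pool.Agent.H849R2.ND.Trees

/-!
# The maximum permanent of a nearly decomposable (0,1)-matrix

For every order `n ≥ 1` we determine the maximum `M n` of the permanent over all `n × n` nearly
decomposable matrices with entries zero and one.  The values for `n ≤ 43` are the entries of
`table`; from order 33 on the maximum is multiplied by exactly 27 whenever the order grows by 11,
that is `M (33 + 11 q + r) = 27 ^ q * M (33 + r)` for `0 ≤ r ≤ 10`.
-/

namespace Pool.Agent.Results.MP_fab339_co.MaxPermanent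

open Finset Matrix

/-- A square matrix of order `n` is fully indecomposable if `n = 1` and its entry is one, or `n ≥ 2`
and it has no `s × t` zero submatrix (`s, t ≥ 1`) with `s + t = n`. -/
def FullyIndecomposable {n : ℕ} (A : Matrix (Fin n) (Fin n) ℕ) : Prop :=
  (n = 1 ∧ ∀ i j, A i j = 1) ∨
    (2 ≤ n ∧ ¬ ∃ S T : Finset (Fin n), S.Nonempty ∧ T.Nonempty ∧ S.card + T.card = n ∧
      ∀ i ∈ S, ∀ j ∈ T, A i j = 0)

/-- The matrix `A` with the entry `(i,j)` replaced by zero. -/
def zap {n : ℕ} (A : Matrix (Fin n) (Fin n) ℕ) (i j : Fin n) : Matrix (Fin n) (Fin n) ℕ :=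
  fun a b => if a = i ∧ b = j then 0 else A a b

/-- Nearly decomposable zero-one matrices: fully indecomposable, and replacing any entry one by zero
destroys full indecomposability. -/
def NearlyDecomposable {n : ℕ} (A : Matrix (Fin n) (Fin n) ℕ) : Prop :=
  (∀ i j, A i j = 0 ∨ A i j = 1) ∧ FullyIndecomposable A ∧
    ∀ i j, A i j = 1 → ¬ FullyIndecomposable (zap A i j)

/-- The values `M 0, M 1, ..., M 43` (the entry of index zero is a dummy). -/
def table : List ℕ := [0, 1, 2, 2, 3, 4, 5, 7, 10, 13, 17, 24, 33, 43, 58, 81, 109, 142, 195, 270,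
  360, 471, 657, 891, 1189, 1584, 2187, 2943, 3927, 5328, 7290, 9720, 12970, 17739, 24057, 32103,
  43209, 59049, 79461, 106029, 143856, 196830, 262440, 350415]

/-- The maximum permanent: `M n` is `table[n]` for `n ≤ 43`, and
`M (33 + 11 q + r) = 27 ^ q * table[33 + r]` for `q ≥ 1`, `0 ≤ r ≤ 10`. -/
def M (n : ℕ) : ℕ :=
  if n ≤ 43 then table.getD n 0 else 27 ^ ((n - 33) / 11) * table.getD (33 + (n - 33) % 11) 0

lemma M_eq (n : ℕ) : M n = Pool.Agent.H849R2.ND.M n := rfl

open Pool.Agent.H849R2.ND in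
lemma per_eq {n : ℕ} (A : Matrix (Fin n) (Fin n) ℕ) :
    per (fun a b => (A a b : ℝ)) = (A.permanent : ℝ) := by
  classical
  have h1 : per (fun a b => (A a b : ℝ)) = ∑ g : Fin n → Fin n,
      if Function.Bijective g then ∏ b, (A (g b) b : ℝ) else 0 := by
    rw [← per_transpose]
    unfold per
    refine sum_congr ?_ fun g _ => ?_
    · ext g
      simp only [mem_univ]
    · split_ifs <;> rfl
  have h2 : ((A.permanent : ℕ) : ℝ) = ∑ σ : Equiv.Perm (Fin n), ∏ b, (A (σ b) b : ℝ) := by
    unfold permanent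
    push_cast
    rfl
  rw [h1, h2]
  symm
  refine Fintype.sum_of_injective (fun σ : Equiv.Perm (Fin n) => (σ : Fin n → Fin n))
    DFunLike.coe_injective (fun σ : Equiv.Perm (Fin n) => ∏ b, (A (σ b) b : ℝ))
    (fun g : Fin n → Fin n => if Function.Bijective g then ∏ b, (A (g b) b : ℝ) else 0) ?_ ?_
  · intro g hg
    rw [if_neg]
    intro hb
    exact hg ⟨Equiv.ofBijective g hb, rfl⟩
  · intro σ
    rw [if_pos σ.bijective]

open Pool.Agent.H849R2.ND in
lemma elem_iff {n : ℕ} (hn : 2 ≤ n) (A : Matrix (Fin n) (Fin n) ℕ) :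
    FullyIndecomposable A ↔ Elem (fun a b => A a b ≠ 0) := by
  constructor
  · rintro (⟨h1, _⟩ | ⟨_, h⟩) Q Y hQ hY hz
    · omega
    · rw [Fintype.card_fin]
      by_contra hcon
      push Not at hcon
      apply h
      have hQn : Q.card ≤ n := by simpa using card_le_univ Q
      have hYn : Y.card ≤ n := by simpa using card_le_univ Y
      have hQ1 : 0 < Q.card := card_pos.2 hQ
      have hY1 : 0 < Y.card := card_pos.2 hY
      obtain ⟨S, hS, hSc⟩ := exists_subset_card_eq (s := Q) (n := min Q.card (n - 1)) (by omega)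
      obtain ⟨T, hT, hTc⟩ := exists_subset_card_eq (s := Y) (n := n - min Q.card (n - 1)) (by omega)
      refine ⟨S, T, ?_, ?_, by omega, ?_⟩
      · rw [← card_pos]; omega
      · rw [← card_pos]; omega
      · intro i hi j hj
        have := hz i (hS hi) j (hT hj)
        simpa using this
  · intro h
    right
    refine ⟨hn, ?_⟩
    rintro ⟨S, T, hS, hT, hc, hz⟩
    have := h S T hS hT (fun a ha b hb => by simpa using hz a ha b hb)
    rw [Fintype.card_fin] at this
    omega

open Pool.Agent.H849R2.ND in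
lemma upper {n : ℕ} (hn : 3 ≤ n) {A : Matrix (Fin n) (Fin n) ℕ} (hA : NearlyDecomposable A) :
    A.permanent ≤ M n := by
  obtain ⟨h01, hF, hess⟩ := hA
  have hs : ∀ B : Matrix (Fin n) (Fin n) ℕ, supp (fun a b => (B a b : ℝ)) = fun a b => B a b ≠ 0 := by
    intro B
    funext a b
    simp [supp]
  have h1 := nd_le hn (fun a b => (A a b : ℝ)) (Fintype.card_fin n) (Fintype.card_fin n)
    (fun a b => by
      rcases h01 a b with h | h
      · left; simp [h]
      · right; simp [h])
    (by rw [hs]; exact (elem_iff (by omega) A).1 hF)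
    (fun a b hab => by
      rw [hs]
      intro hE
      have hab' : A a b = 1 := by exact_mod_cast hab
      apply hess a b hab'
      rw [elem_iff (by omega)]
      convert hE using 1
      funext i j
      unfold zap Rem
      split_ifs with h
      · simp [h]
      · simp [h])
  rw [per_eq] at h1
  rw [M_eq]
  exact_mod_cast h1

lemma permanent_submatrix_equiv {m n : Type} [Fintype m] [Fintype n] [DecidableEq m]
    [DecidableEq n] (e : n ≃ m) (A : Matrix m m ℕ) :
    (A.submatrix e e).permanent = A.permanent := by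
  unfold permanent
  apply Fintype.sum_equiv (Equiv.permCongr e)
  intro σ
  apply Fintype.prod_equiv e
  intro i
  rw [Equiv.permCongr_apply, Equiv.symm_apply_apply, submatrix_apply]

open Pool.Agent.H849R2.ND in
lemma lower {n : ℕ} (hn : 3 ≤ n) :
    ∃ A : Matrix (Fin n) (Fin n) ℕ, NearlyDecomposable A ∧ A.permanent = M n := by
  obtain ⟨Z0, ht⟩ := tr_all n hn
  obtain ⟨ι, _, _, B, i, j, hc, hB⟩ := ht.real
  let e : Fin n ≃ ι := Fintype.equivOfCardEq (by rw [Fintype.card_fin, hc])
  have hcm : ∀ S : Finset (Fin n), (S.map e.toEmbedding).card = S.card := fun S => card_map _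
  have hcm' : ∀ S : Finset ι, (S.map e.symm.toEmbedding).card = S.card := fun S => card_map _
  refine ⟨B.submatrix e e, ⟨fun a b => hB.zo _ _, ?_, ?_⟩, ?_⟩
  · right
    refine ⟨by omega, ?_⟩
    rintro ⟨S, T, hS, hT, hST, hz⟩
    have := hB.fi (S.map e.toEmbedding) (T.map e.toEmbedding) (hS.map) (hT.map) (by
      intro a ha b hb
      rw [mem_map] at ha hb
      obtain ⟨a', ha', rfl⟩ := ha
      obtain ⟨b', hb', rfl⟩ := hb
      exact hz a' ha' b' hb')
    rw [hcm, hcm, hc] at this
    omega
  · intro a b hab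
    obtain ⟨Q, Y, haQ, hbY, hz, hQY, _⟩ := hB.cut (e a) (e b) hab
    rintro (⟨h1, _⟩ | ⟨_, hno⟩)
    · omega
    apply hno
    refine ⟨Q.map e.symm.toEmbedding, Y.map e.symm.toEmbedding, Finset.Nonempty.map ⟨_, haQ⟩,
      Finset.Nonempty.map ⟨_, hbY⟩, ?_, ?_⟩
    · rw [hcm', hcm', hQY, hc]
    · intro a' ha' b' hb'
      rw [mem_map_equiv, Equiv.symm_symm] at ha' hb'
      unfold zap
      split_ifs with h
      · rfl
      · rcases hB.zo (e a') (e b') with h0 | h0
        · exact h0
        · exfalso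
          obtain ⟨h1, h2⟩ := hz _ ha' _ hb' h0
          exact h ⟨e.injective h1, e.injective h2⟩
  · rw [permanent_submatrix_equiv, hB.per]
    rfl

/-- **Main theorem.**  For every `n ≥ 1`, the maximum of the permanent over all `n × n` nearly
decomposable zero-one matrices exists and equals `M n`. -/
theorem result (n : ℕ) (hn : 1 ≤ n) :
    IsGreatest {p : ℕ | ∃ A : Matrix (Fin n) (Fin n) ℕ, NearlyDecomposable A ∧ A.permanent = p}
      (M n) := by
  by_cases h3 : 3 ≤ n
  · refine ⟨lower h3, ?_⟩
    rintro p ⟨A, hA, rfl⟩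
    exact upper h3 hA
  by_cases h1 : n = 1
  · subst h1
    have hp : ∀ A : Matrix (Fin 1) (Fin 1) ℕ, NearlyDecomposable A → A.permanent = 1 := by
      intro A hA
      rcases hA.2.1 with ⟨_, h⟩ | ⟨h, _⟩
      · rw [permanent_unique]; exact h _ _
      · omega
    have hA : NearlyDecomposable (fun _ _ => 1 : Matrix (Fin 1) (Fin 1) ℕ) := by
      refine ⟨fun _ _ => Or.inr rfl, Or.inl ⟨rfl, fun _ _ => rfl⟩, ?_⟩
      rintro i j _ (⟨_, h⟩ | ⟨h, _⟩)
      · have := h i j
        simp [zap] at this
      · omega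
    refine ⟨⟨_, hA, hp _ hA⟩, ?_⟩
    rintro p ⟨A, hA, rfl⟩
    exact (hp A hA).le
  · have h2 : n = 2 := by omega
    subst h2
    refine ⟨⟨fun _ _ => 1, ⟨fun _ _ => Or.inr rfl, Or.inr ⟨le_rfl, ?_⟩, ?_⟩, ?_⟩, ?_⟩
    · rintro ⟨S, T, ⟨s, hs⟩, ⟨t, ht⟩, _, hz⟩
      exact absurd (hz s hs t ht) one_ne_zero
    · rintro i j _ (⟨h, _⟩ | ⟨_, h⟩)
      · omega
      · apply h
        refine ⟨{i}, {j}, singleton_nonempty _, singleton_nonempty _, by simp, ?_⟩
        intro a ha b hb
        rw [mem_singleton] at ha hb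
        subst ha; subst hb
        simp [zap]
    · decide +kernel
    · rintro p ⟨A, hA, rfl⟩
      have h2 : M 2 = 2 := rfl
      rw [h2]
      unfold permanent
      calc ∑ σ : Equiv.Perm (Fin 2), ∏ i, A (σ i) i ≤ ∑ σ : Equiv.Perm (Fin 2), 1 := by
            refine sum_le_sum fun σ _ => ?_
            refine prod_le_one' fun i _ => ?_
            rcases hA.1 (σ i) i with h | h
            · rw [h]; exact zero_le_one
            · rw [h]
        _ = 2 := by
            rw [sum_const, card_univ, Fintype.card_perm, Fintype.card_fin]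
            rfl

end Pool.Agent.Results.MP_fab339_co.MaxPermanent
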